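import Pool.Agent.helper38.AT.All
import Pool.Agent.helper42.AT.GRA
import Pool.Agent.helper79.AT.GRB
import Pool.Agent.helper78.AT.GQ1
import Pool.Agent.helper82.AT.GQC
import Pool.Agent.helper28.AT.GQP
import Pool.Agent.helper31.AT.GQT
import Pool.Agent.helper34.AT.THV
import Pool.Agent.helper11.AT.QSQ
import Pool.Agent.helper39.AT.GQL
import Pool.Agent.helper25.AT.GQK
import Pool.Agent.helper10.AT.GRC
import Pool.Agent.helper72.AT.GRM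
import Pool.Agent.helper72.AT.GRN

/-!
# Project AT (MP_bf63dc_nt): assembly of the theorems for quotients of shifted primes
-/

set_option autoImplicit false

namespace Pool.Agent.AT

open Finset

open Classical in
theorem QSQ_all : ∃ C δ : ℝ, 0 < C ∧ 0 < δ ∧ ∀ c : ℤ, c ≠ 0 → ∀ S : Finset ℚ, (∀ x ∈ S, PrTo c x) →
    1 / 3 * (#S : ℝ) ^ 2 - C * (#S : ℝ) ^ (2 - δ) ≤ #{p ∈ S ×ˢ S | p.1 ≠ p.2 ∧ GoodR c (p.1 / p.2)} :=
  QSQ (THV MM PSY) QPc_all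

theorem RATM_all : ∃ C δ : ℕ → ℝ, (∀ k, 0 < C k ∧ 0 < δ k) ∧ ∀ c : ℤ, c ≠ 0 → RATM C δ c := by
  obtain ⟨K, hK⟩ := GQP GQ1 (BOX_all 4 (by norm_num))
  exact GRN (GQL GQ1) (GQK KSB) BOX_all ⟨K, fun c hc => GRM (GRC GRA) GRB GQ1 K c hc (hK c hc)⟩

theorem FOUR_all (c : ℤ) (hc : c ≠ 0) (x : Fin 4 → ℚˣ) (hx : ∀ i, x i ∈ Gc c) :
    ∃ i j, i ≠ j ∧ ∃ y ∈ Gc c, ∃ z ∈ Gc c, GoodR c y ∧ GoodR c z ∧ x i / x j = y * z := by
  obtain ⟨K, hK⟩ := GQP GQ1 (BOX_all 4 (by norm_num))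
  exact GQT GQ1 K c hc (GQC GQ1 BOX_all K c hc) (hK c hc) x hx

end Pool.Agent.AT
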