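import Pool.Agent.helper10.QT.SpecZ

/-!
# Project AT (MP_bf63dc_nt, rows `bq:*`), fourth addition: THREE factors instead of five

THEOREM (GRC).  Let `G` be an infinite abelian group, `S` symmetric, and let every four disjoint sets of `K` elements of `G` contain two
elements of different sets with their quotient in `S`.  Then `S ^ 3 = G`, or `S ^ 2` is a subgroup of index 2 or 3 which contains `S`.

PROOF.  Let `p` be a nonprincipal ultrafilter on `G` and `W` the set of the `g` such that for `p`-almost all `x`, for `p`-almost all `y`,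
`g x / y ∈ S`.  (1) For all `x_1, ..., x_4` there are `i < j` with `x_i / x_j ∈ W`: otherwise choose one after the other different elements
`a_1, a_2, ..., a_{4K}` with `x_i a_s / (x_j a_t) ∉ S` for all `i < j`, `s < t`; the sets `x_i {a_s : s in the i-th block}` contradict
the hypothesis.  (Translates: if they are not disjoint, see GRC.)  In particular `1 ∈ W`.  (2) If `u, v ∈ W` and `w⁻¹ ∈ W` then
`u v w ∈ S ^ 3`: choose `x`, then `y`, then `z` with `u x / y`, `v y / z`, `w⁻¹ x / z ∈ S`; the product of the first two and of the inverse of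
the third is `u v w`.  (3) If `g = v₁ v₂ v₃`, `v_i ∈ W`, then (1) for `g v₁ v₂, v₁ v₂, g, 1` gives `g ∈ W`, `v₁ v₂ ∈ W`, `g v₁ v₂ ∈ W` or
`v₃⁻¹ ∈ W`, and in each case (2) gives `g ∈ S ^ 3` (`g = (g v₁ v₂) v₁⁻¹ v₂⁻¹`).  (4) GRA for `V = W ∪ W⁻¹` and `m = 1`: `V ^ 3 = G`, and
then `S ^ 3 = G`, or `V = H` is a subgroup of index 2 or 3.  Then `H ⊆ S ^ 2` ((2) with two factors).  If `S ⊆ H` then
`H = S ^ 2`.  If `r ∈ S`, `r ∉ H` then `G` is the union of the cosets `H, r H, r⁻¹ H`, so `G = S ^ 3` (and `H ⊆ V ^ 2 ⊆ S ^ 3`).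

RULES as before: file `Pool/Agent/<seat>/AT/XX.lean`, `import Pool.Agent.helper10.QT.SpecW`, `namespace Pool.Agent.AT`, auxiliary lemmas
prefixed `XX_`, other rows only as hypotheses; no `convert`, no `congr!`, no `native_decide`, no straight double quotes.
-/

set_option autoImplicit false

namespace Pool.Agent.AT

open Finset Pool.Agent.helper85.FC

open scoped Pointwise

/-- **GRC** (short-medium; from GRA; helper10).  The proof is above.  The hypothesis is for all four sets of at least `K` elements, disjoint or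
not; if two of the sets `x_i {a_s}` meet then one takes it as it is: the hypothesis gives a pair `x_i a_s`, `x_j a_t` with `i ≠ j`; by
symmetry `i < j`, so `s < t` (the blocks are increasing) and `x_i a_s / (x_j a_t) ∉ S`. -/
def GRC_stmt : Prop := ∀ {G : Type} [CommGroup G] [Infinite G] (S : Set G) (K : ℕ), (∀ x ∈ S, x⁻¹ ∈ S) →
  (∀ X : Fin 4 → Finset G, (∀ i, K ≤ #(X i)) → ∃ i j, i ≠ j ∧ ∃ x ∈ X i, ∃ y ∈ X j, x / y ∈ S) →
  (∃ H : Subgroup G, (H.index = 2 ∨ H.index = 3) ∧ (∀ x ∈ S, x ∈ H) ∧ (H : Set G) = S ^ 2) ∨ ∀ g : G, g ∈ S ^ 3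

/-- As `RATc`, with three factors. -/
def RATd (K : ℕ) (c : ℤ) : Prop :=
  (∃ H : Subgroup ℚˣ, H ≤ Gc c ∧ (H.relIndex (Gc c) = 2 ∨ H.relIndex (Gc c) = 3) ∧
    (∀ x ∈ Gc c, GoodR c x → x ∈ H) ∧
    (∀ x ∈ H, ∃ y ∈ Gc c, ∃ z ∈ Gc c, GoodR c y ∧ GoodR c z ∧ x = y * z) ∧
    ∀ X Y : Finset ℚˣ, K ≤ #X → K ≤ #Y → (∀ x ∈ X, x ∈ H) → (∀ y ∈ Y, y ∈ H) →
      ∃ x ∈ X, ∃ y ∈ Y, GoodR c ((x / y : ℚˣ) : ℚ)) ∨
  ∀ x ∈ Gc c, ∃ y : Fin 3 → ℚˣ, (∀ i, y i ∈ Gc c ∧ GoodR c (y i)) ∧ x = ∏ i, y i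

/-- **GRM** (short; a copy of GQM, Pool/Agent/helper48/AT/GQM.lean, with GRC instead of GRA and `3` instead of `5`; import GQM and use its
lemmas).  `↥(Gc c)` is infinite: it contains the powers of a prime which does not divide `c`, or: the positive integers `1 + |c| n`. -/
def GRM_stmt : Prop := ∀ (K : ℕ) (c : ℤ), c ≠ 0 →
  (∀ X : Fin 4 → Finset ℚˣ, (∀ i, K ≤ #(X i)) →
    (∀ i, ∀ x ∈ X i, x ∈ Gc c) → ∃ i j, i ≠ j ∧ ∃ x ∈ X i, ∃ y ∈ X j, GoodR c ((x / y : ℚˣ) : ℚ)) → RATd K c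

open Classical in
/-- As `RATL`, with three factors. -/
def RATM (C δ : ℕ → ℝ) (c : ℤ) : Prop :=
  (∃ (H : Subgroup ℚˣ) (m : ℕ), H ≤ Gc c ∧ (m = 2 ∨ m = 3) ∧ H.relIndex (Gc c) = m ∧
    (∀ x ∈ Gc c, GoodR c x → x ∈ H) ∧
    (∀ x ∈ H, ∃ y ∈ Gc c, ∃ z ∈ Gc c, GoodR c y ∧ GoodR c z ∧ x = y * z) ∧
    ∀ k : ℕ, 1 ≤ k → ∀ (F : Fin k → Finset ℚˣ) (L : ℕ), 1 ≤ L → (∀ i, L ≤ #(F i)) → (∀ i, ∀ x ∈ F i, x ∈ H) →
      (#{x ∈ Fintype.piFinset F | ¬ Rich c (m * (1 / 4 + 1 / 500000)) x} : ℝ) ≤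
        C k * (∏ i, (#(F i) : ℝ)) * (L : ℝ) ^ (-δ k)) ∨
  ∀ x ∈ Gc c, ∃ y : Fin 3 → ℚˣ, (∀ i, y i ∈ Gc c ∧ GoodR c (y i)) ∧ x = ∏ i, y i

/-- **GRN** (short; a copy of GQN, Pool/Agent/helper18/AT/GQN.lean, from GQL, GQK). -/
def GRN_stmt : Prop := (∀ k : ℕ, 1 ≤ k → BOXk k) → (∃ K : ℕ, ∀ c : ℤ, c ≠ 0 → RATd K c) →
  ∃ C δ : ℕ → ℝ, (∀ k, 0 < C k ∧ 0 < δ k) ∧ ∀ c : ℤ, c ≠ 0 → RATM C δ c

end Pool.Agent.AT
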