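import Pool.Agent.helper38.AT.Spec

/-!
# Project AT (MP_bf63dc_nt, rows `bq:*`), addition: a third of all pairs with a power saving, multiples of `2 m`

(THP) There are absolute `C, δ > 0` such that every finite set `V` of linear forms `a n + b` with `b` prime to `6 a` has at
least `|V|² / 3 - C |V|^(2 - δ)` ordered pairs which give a true case of Q1.
(THG) For every `m ≥ 1` every long interval of integers `c` contains at least `(1/3 - ε) M` with `p - q = 2 m c` for infinitely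
many pairs of primes; `m = 1`: a third of all even numbers.

RULES as in `Pool.Agent.helper38.AT.Spec`: file `Pool/Agent/<seat>/AT/XX.lean`, `import Pool.Agent.helper10.QT.SpecX`,
`namespace Pool.Agent.AT`, auxiliary lemmas prefixed `XX_`, other rows only as hypotheses; no `convert`, no `congr!`, no
`native_decide`, no straight double quotes.
-/

set_option autoImplicit false

namespace Pool.Agent.AT

open Finset Pool.Agent.helper85.FC

open Classical in
/-- **MM** (medium; pure Mathlib; the inequality of Moon and Moser).  `n = #V`, `N₂`, `N₃`, `N₄` the numbers of the ordered edges,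
triangles, 4-cliques.  (1) For an edge `(x, y)` the number `c x y` of common neighbours in `V` is `≥ d x + d y - n`; the sum over the
ordered edges is `N₃ ≥ 2 ∑ (d x)^2 - n N₂`, so `n N₃ ≥ 2 N₂^2 - n^2 N₂` (Cauchy-Schwarz, `sq_sum_le_card_mul_sum_sq`,
`∑ d = N₂`).  (2) For a triangle `(x, y, z)` and `w ∈ V`: the number of the pairs among `xy, xz, yz` which are both adjacent to `w` is
`≤ 1 + 2 [w adjacent to all three]`; sum over `w` and over the triangles: `3 ∑_{edges} (c x y)^2 ≤ n N₃ + 2 N₄` (each of the three pairs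
gives `∑_{edges} (c x y)^2`), and `N₃^2 ≤ N₂ ∑_{edges} (c x y)^2`.  (3) If `N₂ > (2/3) n^2` (otherwise the claim is clear): `N₃ ≥ N₂ (2 N₂/n - n)`, so
`N₃/N₂ ≥ n/3`, `N₃ ≥ (2/9) n^3`, and `2 N₄ ≥ N₃ (3 N₃/N₂ - n) ≥ (2/9) n^3 (6 N₂/n - 4 n)`, which is the claim.  (All tuples of the
filter have different entries because `R` is irreflexive.) -/
def MM_stmt : Prop := ∀ {α : Type} (V : Finset α) (R : α → α → Prop), (∀ x y, R x y → R y x) → (∀ x, ¬ R x x) →
  (#V : ℝ) ^ 2 * #{p ∈ V ×ˢ V | R p.1 p.2} ≤ 2 / 3 * (#V : ℝ) ^ 4 +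
    3 / 2 * #{t ∈ V ×ˢ V ×ˢ V ×ˢ V | R t.1 t.2.1 ∧ R t.1 t.2.2.1 ∧ R t.1 t.2.2.2 ∧ R t.2.1 t.2.2.1 ∧ R t.2.1 t.2.2.2 ∧
      R t.2.2.1 t.2.2.2}

/-- **PSY** (short).  `Pair` is symmetric and irreflexive: exchange `p` and `q`, `TrueCase a b c ↔ TrueCase b a (-c)`
(`Ample.symm` in Pool/Agent/helper85/FC/Cor.lean has this step), `Nat.gcd_comm`; for `f = g` the number `c` is `0`. -/
def PSY_stmt : Prop := (∀ f g : ℕ × ℤ, Pair f g → Pair g f) ∧ ∀ f : ℕ × ℤ, ¬ Pair f f

/-- **ADV** (short).  Four primitive forms with constant terms prime to 6 are admissible: `p = 2, 3`: `n = 0`; `p ≥ 5`: every form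
has at most one root modulo `p` (none if `p ∣ f.1`, because then `p ∤ f.2`), and `4 < p`. -/
def ADV_stmt : Prop := ∀ f : Fin 4 → ℕ × ℤ, (∀ i, 0 < (f i).1 ∧ IsCoprime ((f i).1 : ℤ) (f i).2 ∧
  IsCoprime (6 : ℤ) (f i).2) → Adm f

open Classical in
/-- **THP** (short-medium; from MM, PSY, ADV).  `R f g := f ≠ g ∧ ¬ Pair f g` (symmetric by PSY).  The 4-cliques of `R` in `V`
correspond to tuples `![x, y, z, w]` in the set of `QPc` for `F i = V`, `L = #V` (admissible by ADV), so `N₄ ≤ C n^(4-δ)`.  MM: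
`N₂ ≤ (2/3) n^2 + (3/2) C n^(2-δ)`, and the number of the pairs with `Pair` is `n^2 - n - N₂` (`Pair f f` is false); `n ≤ n^(2-δ)` as
`δ ≤ 1`.  (`n = 0`: `0 ^ (2-δ) = 0`.) -/
def THP_stmt : Prop := QPc → ∃ C δ : ℝ, 0 < C ∧ 0 < δ ∧ ∀ V : Finset (ℕ × ℤ),
  (∀ f ∈ V, 0 < f.1 ∧ IsCoprime (f.1 : ℤ) f.2 ∧ IsCoprime (6 : ℤ) f.2) →
  1 / 3 * (#V : ℝ) ^ 2 - C * (#V : ℝ) ^ (2 - δ) ≤ #{p ∈ V ×ˢ V | Pair p.1 p.2}

/-- **THM** (short; like THA).  The forms `n + m h_i` with `h_1, h_2` divisible by 6 and `h_3, h_4` congruent to 4 modulo 6 are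
admissible. `p = 2`: all `h_i` are even, `n = 1`. `p = 3`: the `m h_i` are `0` or `m` modulo 3; `n = 1` if `3 ∤ 1 + m`, `n = 2`
if `3 ∣ 1 + m`. `p ≥ 5`: at most four classes of `n` are bad. -/
def THM_stmt : Prop := ∀ (m : ℤ) (h : Fin 4 → ℤ), (6 : ℤ) ∣ h 0 → (6 : ℤ) ∣ h 1 → (6 : ℤ) ∣ h 2 - 4 → (6 : ℤ) ∣ h 3 - 4 →
  Adm (fun i => ((1 : ℕ), m * h i))

open Classical in
/-- **THG** (medium; from THM, THC; replaces THF, which is the case `m = 1`; the proof is that of THF).  `T c = (c ≠ 0 ∧ Dif (m c))`,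
symmetric.  If the statement fails for `m`, `ε` (`≤ 1/3` without loss) there are arbitrarily long intervals `(u, u + M]` with fewer than
`(1/3 - ε) M` integers `c ≠ 0` with `Dif (2 m c)`; so the interval `(2u, 2u + 2M]` contains fewer than `(1/6 - ε/2) (2M)` even `c'` with
`T c'`.  Choose four of them, growing as in THC (with `ε/2` in place of `ε`), `M_0` large in terms of `ε` and of the `C, δ` of `QPc`.  THC
gives at least `(ε/4)³/12 ∏ (2 M_j)` tuples `h`; the tuples of the forms `n + m h_j` are in the product of the sets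
`{(1, m x) | x ∈ (u'_j, u'_j + 2 M_j]}` (of `2 M_j` elements, `m ≠ 0`), admissible (THM), and no pair of them is `Pair` (`Pair (1, x) (1, y)` means
`TrueCase 1 1 (x - y)`, which implies `x - y ≠ 0` and `Dif (x - y)`). So `(ε/4)³/12 ∏ ≤ C ∏ (2 M_0)^(-δ)`: a contradiction for
large `M_0`. -/
def THG_stmt : Prop := QPc → ∀ m : ℕ, 1 ≤ m → ∀ ε : ℝ, 0 < ε → ∃ M₀ : ℕ, ∀ M : ℕ, M₀ ≤ M → ∀ u : ℤ,
  (1 / 3 - ε) * M ≤ #{c ∈ Ioc u (u + M) | c ≠ 0 ∧ Dif (2 * m * c)}

end Pool.Agent.AT
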