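import Pool.Agent.helper10.QT.SpecX
import Pool.Agent.helper7.AL.SpecG

/-!
# Project AT (MP_bf63dc_nt, rows `bq:*`), second addition: the groups generated by the ratios

A positive rational `r = a/b` (lowest terms) is ample (`AmpR`) if `a p - b q = c` is a true case of Q1 for a positive upper proportion of
the `c`.  For an integer `c ≠ 0` let `Gc c` be the group of the positive rationals prime to `c`, and `r ∈ Gc c` good (`GoodR c`) if
`r = (p - c)/(q - c)` for infinitely many pairs of primes.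

THEOREM (a). At least one of the following holds.  (A) There is a subgroup `H` of index 2 or 3 of the positive rationals such that for
`a : b` in `H` all but `C(a, b) N^(1-1/K)` of the `c` of every interval of length `N` which satisfy the conditions of Q1 are true, and
no ratio outside `H` is ample.  (B) EVERY positive rational is a product of three ample ratios.
THEOREM (b). There is an absolute `K` such that for every `c ≠ 0` at least one of the following holds.  (A) There is a subgroup `H` of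
index 2 or 3 of `Gc c` which contains all good `r`, every element of `H` is a product of two good ones, and for all sets
`X, Y ⊆ H` of `K` elements some quotient `x / y` is good.  (B) EVERY element of `Gc c` is a product of five good ones.
THEOREM (c). Absolute `C, δ > 0`: in every finite `S ⊆ Gc c` at least `|S|² / 3 - C |S|^(2-δ)` ordered pairs have a good quotient.

PROOF. (GRA) Let `G` be an abelian group, `S` symmetric, `1 ∈ S`, and among any four elements let two have their quotient in `S^m`.  Let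
`g ∈ S^(2m+2)`, `g = a b`, `a, b ∈ S^(m+1)`.  If `g ∉ S^(2m+1)` then `a, b ∉ S^m`, and all quotients of `1, a, g, g a` are outside `S^m`: a
contradiction.  So the group `H` generated by `S` is `S^(2m+1)`.  Its index is at most 3.  If `g ∉ H` and `x ∈ H` then among the
quotients of `1, x, g, g x` only `x` (or its inverse) is in `H`, so `H = S^m`.  (a) `m = 1`: among any four positive rationals two have an
ample quotient (CLQk 4).  In (A): if `a : b` in `H` is not in the first case of the alternative (helper7, ALTG) then one of `r`, `r (a/b)`,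
`r (a/b)^2` is ample for every `r`, also for `r ∉ H`: a contradiction.  (b) By the box theorem with large `k` (forms `s n + c`: all
tuples are admissible) there is a set `F` of `K` positive integers with all quotients good.  The box theorem for the four clusters
`x_i F` gives good `(x_i f)/(x_j f')`, so `x_i / x_j` is a product of two good ones: `m = 2`.

RULES as in `Pool.Agent.helper38.AT.Spec`: file `Pool/Agent/<seat>/AT/XX.lean`, `import Pool.Agent.helper10.QT.SpecY`,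
`namespace Pool.Agent.AT`, auxiliary lemmas prefixed `XX_`, other rows only as hypotheses; no `convert`, no `congr!`, no
`native_decide`, no straight double quotes.
-/

set_option autoImplicit false

namespace Pool.Agent.AT

open Finset Pool.Agent.helper85.FC

open scoped Pointwise

/-! ## Abstract part -/

/-- **GRA** (short-medium; pure Mathlib).  `S^n` is the set of the products of `n` elements (pointwise power), increasing in `n` (`1 ∈ S`),
symmetric.  (1) `S^(2m+2) ⊆ S^(2m+1)`: otherwise let `g = a b ∉ S^(2m+1)` with `a, b ∈ S^(m+1)` (`pow_add`, `2m+2 = (m+1)+(m+1)`).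
`a ∉ S^m` and `b ∉ S^m` (else `g ∈ S^(2m+1)`), `g ∉ S^m`, `g a ∉ S^m` (else `g = (g a) a⁻¹ ∈ S^m S^(m+1)`).  The four elements
`1, a, g, g a` have the quotients `a, g, g a, b, g, a` and their inverses, none in `S^m`, in particular they are different: a
contradiction.  (2) So `S^n ⊆ S^(2m+1)` for all `n`, and `S^(2m+1)` is a subgroup `H` (or: it is `Subgroup.closure S`).  (3) If `H = ⊤` the
second case holds.  (4) Let `g ∉ H`.  For `x ∈ H`, `x ≠ 1`, the four elements `1, x, g, g x` are different; the quotients of one of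
`1, x` and one of `g, g x` are not in `H ⊇ S^m`; so `x ∈ S^m` (symmetry; `(g x)/g = x`).  (5) If `H.index` is `0` or `≥ 4` there are four
elements in four different cosets (an injection `Fin 4 → G ⧸ H`): no quotient is in `H`, a contradiction. -/
def GRA_stmt : Prop := ∀ {G : Type} [CommGroup G] (S : Set G) (m : ℕ), (1 : G) ∈ S → (∀ x ∈ S, x⁻¹ ∈ S) →
  (∀ x : Fin 4 → G, Function.Injective x → ∃ i j, i ≠ j ∧ x i / x j ∈ S ^ m) →
  (∃ H : Subgroup G, (H.index = 2 ∨ H.index = 3) ∧ (∀ x ∈ S, x ∈ H) ∧ (H : Set G) = S ^ m) ∨ ∀ g : G, g ∈ S ^ (2 * m + 1)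

/-- **GRB** (short; pure Mathlib).  Let `g ∉ H`, clusters `X, Y, g X, g Y`.  A quotient of an element of `X ∪ Y` and one of `g X ∪ g Y` is
not in `H`.  So the pair in `S` comes from `X, Y` or from `g X, g Y` (in one of the two orders; `S` is symmetric). -/
def GRB_stmt : Prop := ∀ {G : Type} [CommGroup G] (S : Set G) (K : ℕ) (H : Subgroup G), (∀ x ∈ S, x⁻¹ ∈ S) →
  (∀ x ∈ S, x ∈ H) → H ≠ ⊤ →
  (∀ X : Fin 4 → Finset G, (∀ i, K ≤ #(X i)) → ∃ i j, i ≠ j ∧ ∃ x ∈ X i, ∃ y ∈ X j, x / y ∈ S) →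
  ∀ X Y : Finset G, K ≤ #X → K ≤ #Y → (∀ x ∈ X, x ∈ H) → (∀ y ∈ Y, y ∈ H) → ∃ x ∈ X, ∃ y ∈ Y, x / y ∈ S

/-! ## Quotients of shifted primes -/

/-- `r = (p - c) / (q - c)` for infinitely many pairs of primes `p, q`. -/
def GoodR (c : ℤ) (r : ℚ) : Prop :=
  {pq : ℕ × ℕ | pq.1.Prime ∧ pq.2.Prime ∧ (pq.1 : ℚ) - c = r * ((pq.2 : ℚ) - c)}.Infinite

/-- `r` is positive and its numerator and denominator are prime to `c`. -/
def PrTo (c : ℤ) (r : ℚ) : Prop :=
  0 < r ∧ ∀ p : ℕ, p.Prime → (p : ℤ) ∣ c → padicValRat p r = 0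

/-- The group of the positive rationals prime to `c`. -/
def Gc (c : ℤ) : Subgroup ℚˣ where
  carrier := {x | PrTo c (x : ℚ)}
  mul_mem' := by
    intro a b ha hb
    refine ⟨?_, fun p hp hpc => ?_⟩
    · rw [Units.val_mul]
      exact mul_pos ha.1 hb.1
    · have := Fact.mk hp
      rw [Units.val_mul, padicValRat.mul a.ne_zero b.ne_zero, ha.2 p hp hpc, hb.2 p hp hpc, add_zero]
  one_mem' := ⟨by simp, fun p hp hpc => by simp⟩
  inv_mem' := by
    intro a ha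
    refine ⟨?_, fun p hp hpc => ?_⟩
    · rw [Units.val_inv_eq_inv_val]
      exact inv_pos.2 ha.1
    · have := Fact.mk hp
      rw [Units.val_inv_eq_inv_val, padicValRat.inv, ha.2 p hp hpc, neg_zero]

/-- **GQ1** (short).  `r = 1`: the pairs `(p, p)`.  Inverse: exchange `p` and `q` (injective image of an infinite set).  Forms: the map
`n ↦ (ev (s, c) n, ev (t, c) n)` is injective for large `n` (`s n + c > 0`), and `t (p - c) = s t n = s (q - c)`. -/
def GQ1_stmt : Prop := (∀ c : ℤ, GoodR c 1) ∧ (∀ (c : ℤ) (r : ℚ), r ≠ 0 → GoodR c r → GoodR c r⁻¹) ∧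
  ∀ (c : ℤ) (s t : ℕ), 0 < s → 0 < t → (∀ N : ℕ, ∃ n ≥ N, (ev (s, c) n).Prime ∧ (ev (t, c) n).Prime) →
    GoodR c ((s : ℚ) / t)

/-- **GQC** (short-medium; the clique).  `K ≥ 1` (`K = 0`: empty).  `k = 4 K`, `K₀` from `BOXk k` (make it `≥ 1`),
`H i = {(1 + |c| (i K₀ + x + 1), c) | x < K₀}`, `i < k`: the first entries are different for different `(i, x)` and prime to `c`.  Every tuple is
admissible: `p ∣ c`: `n = 1`; `p ∤ c`: `n = 0`.  A tuple `f` with `Many f`: for infinitely many `n` more than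
`(1/4 + 1/500000) 4 K > K` forms are prime; some set `I` of more than `K` indices has all its forms prime for infinitely many `n`
(finitely many sets).  Take `K` of the first entries; the quotients are good by GQ1. -/
def GQC_stmt : Prop := (∀ k : ℕ, 1 ≤ k → BOXk k) → ∀ (K : ℕ) (c : ℤ), c ≠ 0 → ∃ F : Finset ℕ, #F = K ∧
  (∀ s ∈ F, 0 < s ∧ IsCoprime (s : ℤ) c) ∧ ∀ s ∈ F, ∀ t ∈ F, GoodR c ((s : ℚ) / t)

/-- **GQP** (medium; from GQ1).  `K` from `BOXk 4`.  If two different `X i` have a common element `x` then `x / x = 1` is good.  Otherwise let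
`D` be the product of the denominators of all `x` in the `X i` (prime to `c`); `D x` is a positive integer `s x`, prime to `c`, injective in
`x`; `H i = {(s x, c) | x ∈ X i}`.  All tuples are admissible (`p ∣ c`: `n = 1`, `p ∤ c`: `n = 0`) and injective.  `Many f` with
`(1/4 + 1/500000) 4 > 1`: two forms `i ≠ j` are prime together for infinitely many `n` (six pairs).  GQ1. -/
def GQP_stmt : Prop := BOXk 4 → ∃ K : ℕ, ∀ c : ℤ, c ≠ 0 → ∀ X : Fin 4 → Finset ℚˣ, (∀ i, K ≤ #(X i)) →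
  (∀ i, ∀ x ∈ X i, x ∈ Gc c) → ∃ i j, i ≠ j ∧ ∃ x ∈ X i, ∃ y ∈ X j, GoodR c ((x / y : ℚˣ) : ℚ)

/-- **GQT** (short; from GQ1).  `F` from the first hypothesis for the `K` of the second; `X i = {x i f | f ∈ F}` (`K` elements of `Gc c`; a
positive integer prime to `c` is in `Gc c`).  Good `(x i f)/(x j f')` and good `f'/f` (if `i`, `j` and `f`, `f'` are given). -/
def GQT_stmt : Prop := ∀ (K : ℕ) (c : ℤ), c ≠ 0 →
  (∃ F : Finset ℕ, #F = K ∧ (∀ s ∈ F, 0 < s ∧ IsCoprime (s : ℤ) c) ∧ ∀ s ∈ F, ∀ t ∈ F, GoodR c ((s : ℚ) / t)) →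
  (∀ X : Fin 4 → Finset ℚˣ, (∀ i, K ≤ #(X i)) →
    (∀ i, ∀ x ∈ X i, x ∈ Gc c) → ∃ i j, i ≠ j ∧ ∃ x ∈ X i, ∃ y ∈ X j, GoodR c ((x / y : ℚˣ) : ℚ)) →
  ∀ x : Fin 4 → ℚˣ, (∀ i, x i ∈ Gc c) → ∃ i j, i ≠ j ∧ ∃ y ∈ Gc c, ∃ z ∈ Gc c, GoodR c y ∧ GoodR c z ∧ x i / x j = y * z

/-- Theorem (b) for `c` with the constant `K`. -/
def RATc (K : ℕ) (c : ℤ) : Prop :=
  (∃ H : Subgroup ℚˣ, H ≤ Gc c ∧ (H.relIndex (Gc c) = 2 ∨ H.relIndex (Gc c) = 3) ∧
    (∀ x ∈ Gc c, GoodR c x → x ∈ H) ∧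
    (∀ x ∈ H, ∃ y ∈ Gc c, ∃ z ∈ Gc c, GoodR c y ∧ GoodR c z ∧ x = y * z) ∧
    ∀ X Y : Finset ℚˣ, K ≤ #X → K ≤ #Y → (∀ x ∈ X, x ∈ H) → (∀ y ∈ Y, y ∈ H) →
      ∃ x ∈ X, ∃ y ∈ Y, GoodR c ((x / y : ℚˣ) : ℚ)) ∨
  ∀ x ∈ Gc c, ∃ y : Fin 5 → ℚˣ, (∀ i, y i ∈ Gc c ∧ GoodR c (y i)) ∧ x = ∏ i, y i

/-- **GQM** (short-medium).  From GRA (`m = 2`), GRB, GQ1 for the group `G = Gc c` (type `↥(Gc c)`), `S = {x | GoodR c x}`; map the subgroup
of `↥(Gc c)` to `ℚˣ` (`Subgroup.map (Gc c).subtype`, `Subgroup.relIndex`, `Subgroup.subgroupOf_map_subtype` or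
`Subgroup.comap_map_eq_self_of_injective`); finite sets in `ℚˣ` with all elements in `Gc c` are images of finite sets of `↥(Gc c)`.
`x ∈ S ^ 2` is `∃ y ∈ S, ∃ z ∈ S, y * z = x` (`sq`, `Set.mem_mul`), `x ∈ S ^ 5` gives `y : Fin 5 → S` with `∏ = x`
(`Set.mem_pow` or by hand). -/
def GQM_stmt : Prop := ∀ (K : ℕ) (c : ℤ), c ≠ 0 →
  (∀ X : Fin 4 → Finset ℚˣ, (∀ i, K ≤ #(X i)) →
    (∀ i, ∀ x ∈ X i, x ∈ Gc c) → ∃ i j, i ≠ j ∧ ∃ x ∈ X i, ∃ y ∈ X j, GoodR c ((x / y : ℚˣ) : ℚ)) →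
  (∀ x : Fin 4 → ℚˣ, (∀ i, x i ∈ Gc c) → ∃ i j, i ≠ j ∧ ∃ y ∈ Gc c, ∃ z ∈ Gc c, GoodR c y ∧ GoodR c z ∧
    x i / x j = y * z) → RATc K c

/-- THEOREM (b) (assembly). -/
theorem RATc_of (hBOX : ∀ k : ℕ, 1 ≤ k → BOXk k) (hGQC : GQC_stmt) (hGQP : GQP_stmt) (hGQT : GQT_stmt)
    (hGQM : GQM_stmt) : ∃ K : ℕ, ∀ c : ℤ, c ≠ 0 → RATc K c := by
  obtain ⟨K, hK⟩ := hGQP (hBOX 4 (by norm_num))
  exact ⟨K, fun c hc => hGQM K c hc (hK c hc) (hGQT K c hc (hGQC hBOX K c hc) (hK c hc))⟩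

/-! ## A third of all quotients, with a power saving -/

open Classical in
/-- **THV** (short; a copy of THP, Pool/Agent/helper53/AT/THP.lean; import it; from MM, PSY).  As THP; the quadruples of `V` are admissible by
hypothesis. -/
def THV_stmt : Prop := QPc → ∃ C δ : ℝ, 0 < C ∧ 0 < δ ∧ ∀ V : Finset (ℕ × ℤ),
  (∀ f ∈ V, 0 < f.1) → (∀ f : Fin 4 → ℕ × ℤ, (∀ i, f i ∈ V) → Adm f) →
  1 / 3 * (#V : ℝ) ^ 2 - C * (#V : ℝ) ^ (2 - δ) ≤ #{p ∈ V ×ˢ V | Pair p.1 p.2}

open Classical in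
/-- **QSQ** (short-medium; from THV).  `C, δ` of THV.  `D` = product of the denominators of `x ∈ S` (prime to `c`), `s x = D x`,
`V = {(s x, c)}` (`#V = #S`).  All quadruples are admissible (`p ∣ c`: `n = 1`, `p ∤ c`: `n = 0`).  `Pair (s, c) (t, c)`:
`(t/d) p - (s/d) q = (t c - s c)/d` (an exact division, `d = gcd s t`), so `t (p - c) = s (q - c)`, `GoodR c (s/t)`; and `s ≠ t` because the
right side of a true case is not `0`. -/
def QSQ_stmt : Prop := THV_stmt → QPc → ∃ C δ : ℝ, 0 < C ∧ 0 < δ ∧ ∀ c : ℤ, c ≠ 0 → ∀ S : Finset ℚ, (∀ x ∈ S, PrTo c x) →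
  1 / 3 * (#S : ℝ) ^ 2 - C * (#S : ℝ) ^ (2 - δ) ≤ #{p ∈ S ×ˢ S | p.1 ≠ p.2 ∧ GoodR c (p.1 / p.2)}

/-! ## Ample ratios -/

open Classical in
/-- `r = a / b` is ample: `(a, b, c)` is a true case for a positive upper proportion of the `c`. -/
def AmpR (r : ℚ) : Prop := ∃ δ : ℝ, 0 < δ ∧ ∀ X₀ : ℕ, ∃ X : ℕ, X₀ ≤ X ∧
  δ * X ≤ #{c ∈ Icc (-(X : ℤ)) X | TrueCase r.num.natAbs r.den c}

/-- **AP1** (short-medium).  `1` is ample: by the hypothesis (THG with `m = 1`, `ε = 1/6`) and the symmetry: for large `M` at least `M/6`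
of the `c` in `(0, M]` have `c ≠ 0` and `Dif (2 c)`, and then `TrueCase 1 1 (2 c)`, `|2 c| ≤ 2 M` (`Dif (2 * 1 * c)`; all conditions of
`TrueCase 1 1 c'` are trivial for even `c' ≠ 0`).  Inverse: `r⁻¹` has numerator `r.den` and denominator `r.num.natAbs` (`r > 0`), and
`TrueCase a b c ↔ TrueCase b a (-c)` (PSY in Pool/Agent/helper72/AT/PSY.lean has this step), `c ↦ -c` is a bijection of
`Icc (-X) X`. -/
def AP1_stmt : Prop := ((∀ m : ℕ, 1 ≤ m → ∀ ε : ℝ, 0 < ε → ∃ M₀ : ℕ, ∀ M : ℕ, M₀ ≤ M → ∀ u : ℤ,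
    (1 / 3 - ε) * M ≤ ({c : ℤ | c ∈ Ioc u (u + M) ∧ c ≠ 0 ∧ Dif (2 * m * c)}.ncard : ℝ)) → AmpR 1) ∧
  ∀ r : ℚ, 0 < r → AmpR r → AmpR r⁻¹

/-- **AP4** (short-medium).  `D` = product of the denominators, `s i = D x i`, different positive integers.  `CLQk 4`: `#I > 1`, so there
are `i ≠ j` in `I`; `s j / gcd`, `s i / gcd` are the numerator and the denominator of `x j / x i`
(`Rat.div_int_inj`-type argument, or `Rat.num_div_eq_of_coprime`, `Rat.den_div_eq_of_coprime`). -/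
def AP4_stmt : Prop := CLQk 4 → ∀ x : Fin 4 → ℚ, (∀ i, 0 < x i) → Function.Injective x → ∃ i j, i ≠ j ∧ AmpR (x i / x j)

/-- **AGE** (short-medium).  `a/b = r` in lowest terms.  For every `X ≥ C (a + b)` there is `j ≤ 2`; one `j` occurs for arbitrarily large
`X` (finitely many `j`); `δ = 1/(C (a + b))`.  `lo (a a₀^j) (b b₀^j)` and `lo (b b₀^j) (a a₀^j)` are the numerator and the
denominator of `r (a₀/b₀)^j`.  (`{c | |c| ≤ X ∧ ...}.ncard` is the number of the elements of the filter of `Icc (-X) X`.) -/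
def AGE_stmt : Prop := ∀ a₀ b₀ : ℕ, 0 < a₀ → 0 < b₀ → Pool.Agent.AL.Geo a₀ b₀ → ∀ r : ℚ, 0 < r →
  ∃ j ≤ 2, AmpR (r * ((a₀ : ℚ) / b₀) ^ j)

/-- Theorem (a) with the constant `K`. -/
def AMPK (K : ℕ) : Prop :=
  (∃ H : Subgroup ℚˣ, H ≤ Units.posSubgroup ℚ ∧
    (H.relIndex (Units.posSubgroup ℚ) = 2 ∨ H.relIndex (Units.posSubgroup ℚ) = 3) ∧
    ∀ x ∈ Units.posSubgroup ℚ, (x ∈ H → Pool.Agent.AL.TCG (x : ℚ).num.natAbs (x : ℚ).den K ∧
      ∃ C : ℝ, Pool.Agent.AL.SparseG (x : ℚ).num.natAbs (x : ℚ).den K C) ∧ (AmpR x ↔ x ∈ H)) ∨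
  ∀ x ∈ Units.posSubgroup ℚ, ∃ y : Fin 3 → ℚˣ, (∀ i, y i ∈ Units.posSubgroup ℚ ∧ AmpR (y i)) ∧ x = ∏ i, y i

/-- **AMF** (short-medium).  From GRA (`m = 1`) for the group `G = ↥(Units.posSubgroup ℚ)`, `S = {x | AmpR x}`, mapped to `ℚˣ` as in GQM.
In the first case `H = S`, and `H` is not the whole group: take `g` positive, `g ∉ H`.  For `x = a₀/b₀ ∈ H` (lowest terms) the alternative
`h4` gives the claim or `Geo a₀ b₀`; in the second case AGE for `r = g` gives `g x^j ∈ H` for some `j`, so `g ∈ H`: a contradiction. -/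
def AMF_stmt : Prop := ∀ K : ℕ, AmpR 1 → (∀ r : ℚ, 0 < r → AmpR r → AmpR r⁻¹) →
  (∀ x : Fin 4 → ℚ, (∀ i, 0 < x i) → Function.Injective x → ∃ i j, i ≠ j ∧ AmpR (x i / x j)) →
  (∀ a₀ b₀ : ℕ, 0 < a₀ → 0 < b₀ → Nat.Coprime a₀ b₀ →
    (Pool.Agent.AL.TCG a₀ b₀ K ∧ ∃ C : ℝ, Pool.Agent.AL.SparseG a₀ b₀ K C) ∨ Pool.Agent.AL.Geo a₀ b₀) → AMPK K

end Pool.Agent.AT
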