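import Pool.Agent.helper10.QT.SpecY

/-!
# Project AT (MP_bf63dc_nt, rows `bq:*`), third addition: the ladder (helper7) for shifted primes

`Rich c θ x` for a `k`-tuple `x` of positive rationals: for arbitrarily large rationals `N` more than `θ k` of the numbers
`x i N + c` are primes.  It does not change if `x` is multiplied by a positive rational.

THEOREM (b'). There are `C k, δ k > 0` such that for every `c ≠ 0` at least one of the following holds.  (A) There is a subgroup `H` of index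
`m ∈ {2, 3}` of `Gc c` which contains all good `r`, every element of `H` is a product of two good ones, and for every `k` and all finite
sets `F_1, ..., F_k ⊆ H` of at least `L` elements all but `C |F_1| ... |F_k| L^(-δ)` of the tuples `x ∈ F_1 × ... × F_k` are
`Rich c (m (1/4 + 1/500000))`: more than half (`m = 2`), more than three quarters (`m = 3`) of the `x_i N + c` are prime together.
(B) EVERY element of `Gc c` is a product of five good ones.

PROOF.  Let `X_1, ..., X_k ⊆ H` be disjoint sets of `K` elements and `g_1, ..., g_m` elements in the `m` cosets of `H`.  The box theorem for the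
`m k` clusters `g_p X_i` gives a tuple with more than `(1/4 + 1/500000) m k` simultaneous primes.  Primes in two different copies
`g_p X`, `g_q X` would give a good ratio outside `H`.  So all of them are in one copy (GQL).  The box lemma gives the power saving (GQK).

RULES as before: file `Pool/Agent/<seat>/AT/XX.lean`, `import Pool.Agent.helper10.QT.SpecZ`, `namespace Pool.Agent.AT`, auxiliary lemmas
prefixed `XX_`, other rows only as hypotheses; no `convert`, no `congr!`, no `native_decide`, no straight double quotes.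
-/

set_option autoImplicit false

namespace Pool.Agent.AT

open Finset Pool.Agent.helper85.FC

/-- For arbitrarily large rationals `N` more than `θ k` of the numbers `x i N + c` are primes. -/
def Rich (c : ℤ) (θ : ℝ) {k : ℕ} (x : Fin k → ℚˣ) : Prop :=
  ∀ B : ℕ, ∃ N : ℚ, (B : ℚ) ≤ N ∧ θ * k < ({i : Fin k | ∃ p : ℕ, p.Prime ∧ (x i : ℚ) * N + c = p}.ncard : ℝ)

/-- **GQL** (medium; from GQ1; like GQP).  `K` from `BOXk (m * k)`; index the `m k` clusters by `finProdFinEquiv : Fin m × Fin k ≃ Fin (m * k)`.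
If `g p x = g q y` for some `p ≠ q`, `x ∈ X i`, `y ∈ X j` the quotient `1` is good.  Otherwise all tuples of the box `g p X i` are
injective (`X i`, `X j` disjoint).  `D` = product of the denominators of all `g p x` (prime to `c`), forms `(D g p x, c)`, always
admissible (`p ∣ c`: `n = 1`; `p ∤ c`: `n = 0`).  `BOXk` gives a choice `y (p, i) ∈ X i` such that for infinitely many `n` more than
`(1/4 + 1/500000) m k` of the forms `D g p y(p, i) n + c` are prime.  If for infinitely many `n` forms with two different `p ≠ q` are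
prime then (finitely many `p, q, i, j`) the second case holds (GQ1).  Otherwise for infinitely many `n` all of the prime forms have the same
`p`, for one `p` infinitely often: `x i = y (p, i)`, `N = D g p n`, `θ = m (1/4 + 1/500000)`. -/
def GQL_stmt : Prop := ∀ k m : ℕ, 1 ≤ k → 1 ≤ m → BOXk (m * k) → ∃ K : ℕ, ∀ c : ℤ, c ≠ 0 →
  ∀ (g : Fin m → ℚˣ) (X : Fin k → Finset ℚˣ), (∀ p, g p ∈ Gc c) → (∀ i, K ≤ #(X i)) → (∀ i, ∀ x ∈ X i, x ∈ Gc c) →
  (∀ i j, i ≠ j → Disjoint (X i) (X j)) →
  (∃ x : Fin k → ℚˣ, (∀ i, x i ∈ X i) ∧ Rich c (m * (1 / 4 + 1 / 500000)) x) ∨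
  ∃ p q, p ≠ q ∧ ∃ i j, ∃ x ∈ X i, ∃ y ∈ X j, GoodR c ((g p * x / (g q * y) : ℚˣ) : ℚ)

open Classical in
/-- **GQK** (short-medium; from KSB).  Let `C', δ` be the constants of KSB for `max K 1`, `k`, `C = C' + k²`.  `B` = the tuples of the product
without `P`, `B'` = those with different entries.  There are at most `k² ∏ / L` tuples with two equal entries (as COI,
Pool/Agent/helper68/AT/COI.lean, for another type).  If `#B' > C' ∏ L^(-δ)` then KSB gives a box `X ⊆ B'` of sets with
`max K 1` elements; the `X i` are disjoint (a common element of `X i` and `X j` would give a tuple with two equal entries), and some tuple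
in it has `P`: a contradiction. -/
def GQK_stmt : Prop := ∀ k K : ℕ, 1 ≤ k → ∃ C δ : ℝ, 0 < C ∧ 0 < δ ∧ ∀ (A : Set ℚˣ) (P : (Fin k → ℚˣ) → Prop),
  (∀ X : Fin k → Finset ℚˣ, (∀ i, K ≤ #(X i)) → (∀ i, ∀ x ∈ X i, x ∈ A) → (∀ i j, i ≠ j → Disjoint (X i) (X j)) →
    ∃ x : Fin k → ℚˣ, (∀ i, x i ∈ X i) ∧ P x) →
  ∀ (F : Fin k → Finset ℚˣ) (L : ℕ), 1 ≤ L → (∀ i, L ≤ #(F i)) → (∀ i, ∀ x ∈ F i, x ∈ A) →
    (#{x ∈ Fintype.piFinset F | ¬ P x} : ℝ) ≤ C * (∏ i, (#(F i) : ℝ)) * (L : ℝ) ^ (-δ)

open Classical in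
/-- Theorem (b') for `c`. -/
def RATL (C δ : ℕ → ℝ) (c : ℤ) : Prop :=
  (∃ (H : Subgroup ℚˣ) (m : ℕ), H ≤ Gc c ∧ (m = 2 ∨ m = 3) ∧ H.relIndex (Gc c) = m ∧
    (∀ x ∈ Gc c, GoodR c x → x ∈ H) ∧
    (∀ x ∈ H, ∃ y ∈ Gc c, ∃ z ∈ Gc c, GoodR c y ∧ GoodR c z ∧ x = y * z) ∧
    ∀ k : ℕ, 1 ≤ k → ∀ (F : Fin k → Finset ℚˣ) (L : ℕ), 1 ≤ L → (∀ i, L ≤ #(F i)) → (∀ i, ∀ x ∈ F i, x ∈ H) →
      (#{x ∈ Fintype.piFinset F | ¬ Rich c (m * (1 / 4 + 1 / 500000)) x} : ℝ) ≤
        C k * (∏ i, (#(F i) : ℝ)) * (L : ℝ) ^ (-δ k)) ∨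
  ∀ x ∈ Gc c, ∃ y : Fin 5 → ℚˣ, (∀ i, y i ∈ Gc c ∧ GoodR c (y i)) ∧ x = ∏ i, y i

/-- **GQN** (short-medium; from GQL, GQK).  For `k` take `C k, δ k` which work for both `m = 2` and `m = 3`: `K` from GQL for `(k, 2)` and
`(k, 3)`, the maximum of both, GQK for this `K`.  Given `c`: if the second case of `RATc` holds nothing is to show.  Otherwise `H` of
`relIndex` `m`: choose `g : Fin m → ℚˣ` in `Gc c` with `g p / g q ∉ H` for `p ≠ q` (representatives of the cosets:
`H.relIndex (Gc c) = (H.subgroupOf (Gc c)).index = Nat.card (↥(Gc c) ⧸ H.subgroupOf (Gc c))`; `Finite.equivFinOfCardEq`-type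
enumeration).  For `X i ⊆ H` the second case of GQL gives `g p x / (g q y)` good, so in `H`, so `g p / g q ∈ H`: a contradiction.  So the
hypothesis of GQK holds with `A = H`, `P = Rich c (m (1/4 + 1/500000))`. -/
def GQN_stmt : Prop := (∀ k : ℕ, 1 ≤ k → BOXk k) → (∃ K : ℕ, ∀ c : ℤ, c ≠ 0 → RATc K c) →
  ∃ C δ : ℕ → ℝ, (∀ k, 0 < C k ∧ 0 < δ k) ∧ ∀ c : ℤ, c ≠ 0 → RATL C δ c

end Pool.Agent.AT
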